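import Pool.Agent.P.MP_b8021b_nt.VC.All
import Pool.Agent.P.MP_b8021b_nt.VC.PBloch

/-!
For every smooth projective geometrically integral curve `X` over a number field `k`, Bloch's group
`V(X)`, the kernel of the norm on `CH²(X, 1)`, is a torsion group.
-/

namespace Pool.Agent.Old.MP_b8021b_nt.BlochVTorsion

open Pool.Agent.P.MP_b8021b_nt.Bloch

theorem result (k F : Type) [Field k] [NumberField k] [Field F] [Algebra k F]
    (hF : ∃ t : F, Transcendental k t ∧ FiniteDimensional (IntermediateField.adjoin k {t}) F)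
    (hk : algebraicClosure k F = ⊥) (D : Chain k F) (hD : chainNorm D = 1) :
    ∃ n : ℕ, 0 < n ∧ n • D ∈ symbols k F :=
  torsion Pool.Agent.P.MP_b8021b_nt.VC.All.t_Crv Pool.Agent.P.MP_b8021b_nt.VC.All.t_Fin
    Pool.Agent.P.MP_b8021b_nt.VC.All.t_Const k F hF hk D hD

end Pool.Agent.Old.MP_b8021b_nt.BlochVTorsion
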