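import Pool.Agent.P.MP_b8021b_nt.CM.All2

/-!
The exterior product of two Heegner divisor classes of degree zero that belong to the same
imaginary quadratic field is torsion in the Chow group of zero-cycles.

`Φ` and `Ψ` are tuples of modular forms for `Γ(N)` and `Γ(N')`; they give arbitrary morphisms
`φ`, `ψ` from `X(N)`, `X(N')` onto projective curves `X`, `X'` (for instance modular
parametrisations of two elliptic curves), and `b`, `b'` are the images of the cusp at infinity.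
The double sum is the zero-cycle `(D - (deg D) b) × (D' - (deg D') b')` on `X × X'`, where `D`
and `D'` are the images of the Heegner divisors.
-/

namespace Pool.Agent.Old.MP_b8021b_nt.HeegnerProductTorsion

open Pool.Agent.P.MP_b8021b_nt.CM CongruenceSubgroup
open scoped MatrixGroups UpperHalfPlane

theorem result (N N' n n' : ℕ) (k k' : ℤ) (hN : 3 ≤ N) (hN' : 3 ≤ N')
    (Φ : Fin (n + 1) → ModularForm (Gamma N : Subgroup SL(2, ℤ)) k)
    (Ψ : Fin (n' + 1) → ModularForm (Gamma N' : Subgroup SL(2, ℤ)) k')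
    (φ : ℍ → modCurve fun i => Φ i) (b : modCurve fun i => Φ i)
    (ψ : ℍ → modCurve fun i => Ψ i) (b' : modCurve fun i => Ψ i)
    (hφ : IsParam (fun i => Φ i) φ b) (hψ : IsParam (fun i => Ψ i) ψ b')
    (t m t' m' : ℤ) (hD : t ^ 2 < 4 * m) (hD' : t' ^ 2 < 4 * m')
    (hK : IsSquare ((4 * m - t ^ 2) * (4 * m' - t' ^ 2)))
    (ν : Matrix (Fin 2) (Fin 2) (ZMod N)) (ν' : Matrix (Fin 2) (Fin 2) (ZMod N'))
    (R R' : Finset (Matrix (Fin 2) (Fin 2) ℤ)) (z z' : Matrix (Fin 2) (Fin 2) ℤ → ℍ)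
    (h : IsHeegSystem N t m ν R z) (h' : IsHeegSystem N' t' m' ν' R' z') :
    ∃ c : ℕ, 0 < c ∧ c • ∑ w ∈ R, ∑ w' ∈ R', symb b b' (φ (z w)) (ψ (z' w')) ∈
      ratTrivial₂ (modCurve fun i => Φ i) (modCurve fun i => Ψ i) :=
  finalHeeg heegAll projAll hN hN' Φ Ψ hφ hψ hD hD' hK h h'

/-- The maps `φ` and the base points `b` exist as soon as one of the forms is not zero. -/
theorem exists_param {N n : ℕ} {k : ℤ} (hN : 0 < N)
    (Φ : Fin (n + 1) → ModularForm (Gamma N : Subgroup SL(2, ℤ)) k) (h : ∃ i, Φ i ≠ 0) :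
    ∃ φ b, IsParam (fun i => Φ i) φ b :=
  Pool.Agent.P.MP_b8021b_nt.CM.exists_param limS hN Φ h

/-- Systems of representatives always exist. -/
theorem exists_system {N : ℕ} (hN : 0 < N) {t m : ℤ} (hD : t ^ 2 < 4 * m)
    (ν : Matrix (Fin 2) (Fin 2) (ZMod N)) : ∃ R z, IsHeegSystem N t m ν R z :=
  heegEx N hN t m hD ν

end Pool.Agent.Old.MP_b8021b_nt.HeegnerProductTorsion
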