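import Pool.Agent.P.MP_b8021b_nt.BP.All

/-!
Over every number field that contains a square root of minus one, a positive proportion of the
quadratic twists `y ^ 2 = x ^ 3 + b t ^ 2 x` of a curve `y ^ 2 = x ^ 3 + b x` have finitely many
rational points and an L-function that is meromorphic and of order zero at one. The twists are
counted through the squarefree part `I` of the ideal generated by `t`.
-/

namespace Pool.Agent.Results.MP_b8021b_nt.PositiveBSD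

open WeierstrassCurve NumberField

theorem result (K : Type) [Field K] [NumberField K] (hi : ∃ i : K, i ^ 2 = -1) :
    (∃ b : K, (∃ a : ℕ, b ^ 2 ^ a = -1) ∧ ¬ IsSquare b) ∧
    ∀ b : K, (∃ a : ℕ, b ^ 2 ^ a = -1) → ¬ IsSquare b →
      ∃ c X₀ : ℝ, 0 < c ∧ ∀ X : ℝ, X₀ ≤ X →
        c * X ≤ (Set.ncard {I : Ideal (𝓞 K) | Squarefree I ∧ (Ideal.absNorm I : ℝ) ≤ X ∧
          ∃ (t : 𝓞 K) (J : Ideal (𝓞 K)), Ideal.span {t} = I * J ^ 2 ∧
            (⟨0, 0, 0, b * (t : K) ^ 2, 0⟩ : WeierstrassCurve K).IsElliptic ∧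
            Finite (⟨0, 0, 0, b * (t : K) ^ 2, 0⟩ : WeierstrassCurve K).toAffine.Point ∧
            ∃ F : ℂ → ℂ, MeromorphicOn F Set.univ ∧
              (∀ s : ℂ, 3 / 2 < s.re →
                LSeriesSummable (fun n =>
                  ((⟨0, 0, 0, b * (t : K) ^ 2, 0⟩ : WeierstrassCurve K).LFunction n : ℂ)) s ∧
                F s = (⟨0, 0, 0, b * (t : K) ^ 2, 0⟩ : WeierstrassCurve K).LSeries s) ∧
              meromorphicOrderAt F 1 = 0} : ℝ) := by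
  obtain ⟨⟨ζ, a, -, h1, h2⟩, h3⟩ := Pool.Agent.P.MP_b8021b_nt.BP.all K hi
  refine ⟨⟨ζ, ⟨a, by exact_mod_cast h1⟩, h2.ns⟩, fun b ⟨a, ha⟩ hb => ?_⟩
  obtain ⟨i, hi⟩ := hi
  have a1 : 1 ≤ a := Nat.one_le_iff_ne_zero.2 fun e =>
    hb ⟨i, by rw [e] at ha; linear_combination ha - hi⟩
  have ha' : (-b) ^ 2 ^ a = -1 := by rw [Even.neg_pow ((Nat.even_pow).2 ⟨even_two, by omega⟩), ha]
  have hz : IsIntegral ℤ (-b) :=
    IsIntegral.of_pow (n := 2 ^ a) (by positivity) (ha' ▸ isIntegral_one.neg)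
  have b0 : b ≠ 0 := fun e => hb (e ▸ IsSquare.zero)
  obtain ⟨z, hz⟩ : ∃ z : 𝓞 K, (z : K) = -b := ⟨⟨-b, hz⟩, rfl⟩
  obtain ⟨c, X₀, c0, h⟩ := h3 z a a1
    (RingOfIntegers.ext (by push_cast; exact (hz ▸ ha' : (z : K) ^ 2 ^ a = -1)))
    ⟨fun v => by
      have := Pool.Agent.P.MP_b8021b_nt.BS.CF.od_pow v (-b) (2 ^ a)
      rw [ha', ← hz, Pool.Agent.P.MP_b8021b_nt.BS.CF.od_neg,
        Pool.Agent.P.MP_b8021b_nt.BS.CF.od_one] at this
      exact (mul_eq_zero.1 this.symm).resolve_left (by positivity),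
    fun ⟨s, hs⟩ => hb ⟨i * s, by linear_combination hz - hs - s ^ 2 * hi⟩⟩
  refine ⟨c, X₀, c0, fun X hX => (h X hX).trans (Nat.cast_le.2 (Set.ncard_le_ncard ?_ ?_))⟩
  · rintro I ⟨s1, s2, t, J, t0, s3, s4, s5⟩
    rw [hz, neg_mul, neg_neg] at s4 s5
    refine ⟨s1, s2, t, J, s3, ⟨?_⟩, s4, s5⟩
    have : (⟨0, 0, 0, b * (t : K) ^ 2, 0⟩ : WeierstrassCurve K).Δ = -64 * (b * t ^ 2) ^ 3 := by
      simp only [Δ, b₂, b₄, b₆, b₈]; ring
    rw [this]
    exact (mul_ne_zero (by norm_num) (pow_ne_zero 3 (mul_ne_zero b0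
      (pow_ne_zero 2 (by exact_mod_cast t0))))).isUnit
  · exact (Ideal.finite_setOfPred_absNorm_le (S := 𝓞 K) ⌊X⌋₊).subset fun I hI => Nat.le_floor hI.2.1

end Pool.Agent.Results.MP_b8021b_nt.PositiveBSD
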