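import Pool.Agent.P.MP_b8021b_nt.BS.All

/-!
Over every number field that contains a square root of minus one, infinitely many elliptic curves
`y ^ 2 = x ^ 3 + b x` have finitely many rational points and an L-function that is meromorphic and
of order zero at one.
-/

namespace Pool.Agent.Results.MP_b8021b_nt.RankZeroBSD

open WeierstrassCurve

theorem result (K : Type) [Field K] [NumberField K] (hi : ∃ i : K, i ^ 2 = -1) :
    ∃ B : Set K, B.Infinite ∧
      (∀ b ∈ B, ∀ b' ∈ B, b ≠ b' → ∀ C : VariableChange K,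
        C • (⟨0, 0, 0, b, 0⟩ : WeierstrassCurve K) ≠ ⟨0, 0, 0, b', 0⟩) ∧
      ∀ b ∈ B, (⟨0, 0, 0, b, 0⟩ : WeierstrassCurve K).IsElliptic ∧
        Finite (⟨0, 0, 0, b, 0⟩ : WeierstrassCurve K).toAffine.Point ∧
        ∃ F : ℂ → ℂ, MeromorphicOn F Set.univ ∧
          (∀ s : ℂ, 3 / 2 < s.re →
            LSeriesSummable (fun n => ((⟨0, 0, 0, b, 0⟩ : WeierstrassCurve K).LFunction n : ℂ)) s ∧
            F s = (⟨0, 0, 0, b, 0⟩ : WeierstrassCurve K).LSeries s) ∧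
          meromorphicOrderAt F 1 = 0 := by
  obtain ⟨B, h1, h2, h3⟩ := Pool.Agent.P.MP_b8021b_nt.BS.all K hi
  refine ⟨B, h1, h2, fun b hb => ⟨⟨?_⟩, (h3 b hb).2⟩⟩
  have : (⟨0, 0, 0, b, 0⟩ : WeierstrassCurve K).Δ = -64 * b ^ 3 := by
    simp only [Δ, b₂, b₄, b₆, b₈]; ring
  rw [this]
  exact (mul_ne_zero (by norm_num) (pow_ne_zero 3 (h3 b hb).1)).isUnit

end Pool.Agent.Results.MP_b8021b_nt.RankZeroBSD
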