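import Pool.Agent.P.MP_b8021b_nt.CM.All2

/-!
Special zero-cycles on a product of two modular curves are torsion in the Albanese kernel.

`Φ` and `Ψ` are tuples of modular forms for `Γ(N)`; they give arbitrary morphisms `φ`, `ψ` from
`X(N)` onto projective curves `X`, `X'` (for instance `X(N)` itself, `X₀(N)`, or an elliptic
curve), and `b`, `b'` are the images of the cusp at infinity.  The special cycle attached to a
positive definite binary form `(m, r, j)` and a class `μ` modulo `N` is the sum of the CM points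
`(τ, σ)` with `y₁ τ = y₂ τ = σ`, over the `Γ(N) × Γ(N)`-orbits of pairs of integral matrices
`(y₁, y₂)` with Gram matrix `(m, r, j)` for the determinant and reduction `μ`.
-/

namespace Pool.Agent.Old.MP_b8021b_nt.SpecialCyclesTorsion

open Pool.Agent.P.MP_b8021b_nt.CM CongruenceSubgroup
open scoped MatrixGroups UpperHalfPlane

theorem result (N n n' : ℕ) (k k' : ℤ) (hN : 3 ≤ N)
    (Φ : Fin (n + 1) → ModularForm (Gamma N : Subgroup SL(2, ℤ)) k)
    (Ψ : Fin (n' + 1) → ModularForm (Gamma N : Subgroup SL(2, ℤ)) k')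
    (φ : ℍ → modCurve fun i => Φ i) (b : modCurve fun i => Φ i)
    (ψ : ℍ → modCurve fun i => Ψ i) (b' : modCurve fun i => Ψ i)
    (hφ : IsParam (fun i => Φ i) φ b) (hψ : IsParam (fun i => Ψ i) ψ b')
    (m r j : ℤ) (hj : 0 < j) (hD : r ^ 2 < 4 * m * j)
    (μ : Matrix (Fin 2) (Fin 2) (ZMod N) × Matrix (Fin 2) (Fin 2) (ZMod N))
    (R : Finset (Matrix (Fin 2) (Fin 2) ℤ × Matrix (Fin 2) (Fin 2) ℤ))
    (P : Matrix (Fin 2) (Fin 2) ℤ × Matrix (Fin 2) (Fin 2) ℤ → ℍ × ℍ)
    (h : IsSystem N m r j μ R P) :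
    ∃ c : ℕ, 0 < c ∧ c • ∑ y ∈ R, symb b b' (φ (P y).1) (ψ (P y).2) ∈
      ratTrivial₂ (modCurve fun i => Φ i) (modCurve fun i => Ψ i) :=
  finalSpecial mainAll projAll hN Φ Ψ hφ hψ hj hD h

/-- The maps `φ` and the base points `b` exist as soon as one of the forms is not zero. -/
theorem exists_param {N n : ℕ} {k : ℤ} (hN : 0 < N)
    (Φ : Fin (n + 1) → ModularForm (Gamma N : Subgroup SL(2, ℤ)) k) (h : ∃ i, Φ i ≠ 0) :
    ∃ φ b, IsParam (fun i => Φ i) φ b :=
  Pool.Agent.P.MP_b8021b_nt.CM.exists_param limS hN Φ h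

/-- Systems of representatives always exist. -/
theorem exists_system {N : ℕ} (hN : 0 < N) {m r j : ℤ} (hj : 0 < j) (hD : r ^ 2 < 4 * m * j)
    (μ : Matrix (Fin 2) (Fin 2) (ZMod N) × Matrix (Fin 2) (Fin 2) (ZMod N)) :
    ∃ R P, IsSystem N m r j μ R P :=
  FinalP.exists_system hN hj hD μ

end Pool.Agent.Old.MP_b8021b_nt.SpecialCyclesTorsion
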