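import Pool.Agent.P.MP_b8021b_nt.VE.All

/-!
For every elliptic curve `E` over `ℚ` the Albanese kernel of the Suslin homology `H₀(E × 𝔾ₘ)`,
that is Bloch's group `V(E)`, is a torsion group.
-/

open scoped Classical

namespace Pool.Agent.Old.MP_b8021b_nt.SuslinKernelTorsion

open Pool.Agent.P.MP_b8021b_nt.VE

theorem result (W : WeierstrassCurve ℚ) [W.IsElliptic]
    (D : ((W.baseChange (AlgebraicClosure ℚ)).toAffine.Point × (AlgebraicClosure ℚ)ˣ) →₀ ℤ)
    (hG : GalInv W D) (hdeg : (D.sum fun _ n => n) = 0) (hE : (D.sum fun z n => n • z.1) = 0)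
    (hu : (D.prod fun z n => z.2 ^ n) = 1) : ∃ n : ℕ, 0 < n ∧ n • D ∈ susTrivial W :=
  all_Main W D hG hdeg hE hu

end Pool.Agent.Old.MP_b8021b_nt.SuslinKernelTorsion
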